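import Pool.Agent.helper93.TV.Spec2

namespace Pool.Agent.helper93.TV

open BigOperators Finset Matrix

theorem DT_tp {I V : Type} [Fintype I] [DecidableEq I] [Fintype V] [DecidableEq V]
    (D : FD I V) (X : Finset I) (F : V → V → V → V → ℂ) (hF : D.UF F) (l' : V) :
    ∀ (p : List V) (l : V) (p' : List V), D.s1 l ∈ X →
      (D.ok X (D.t l) p ∨ D.ok X (D.s2 l) p') →
      tp (D.restr X F) l p p' l' = tp F l p p' l' := by
  intro p
  induction p with
  | nil =>
    intro l p' _ _
    cases p' with
    | nil => simp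
    | cons e' p' => simp
  | cons e p ih =>
    intro l p' hl hok
    cases p' with
    | nil => simp
    | cons e' p' =>
      rw [tp_cons, tp_cons]
      refine Finset.sum_congr rfl fun l'' _ => ?_
      by_cases h0 : F l e e' l'' = 0
      · have h1 : D.restr X F l e e' l'' = 0 := by
          unfold FD.restr
          split_ifs
          · exact h0
          · rfl
        rw [h0, h1, zero_mul, zero_mul]
      · obtain ⟨hcp, _, _⟩ := hF.conn.supp _ _ _ _ h0
        obtain ⟨c1, c2, c3, c4, c5, c6⟩ := hcp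
        have hX : D.s2 e ∈ X := by
          rcases hok with h | h
          · exact h.2.1
          · rw [c5]; exact h.2.1
        have h1 : D.restr X F l e e' l'' = F l e e' l'' := by
          unfold FD.restr
          rw [if_pos ⟨hl, hX⟩]
        rw [h1, ih l'' p' (c3 ▸ hl)]
        rcases hok with h | h
        · left
          rw [← c6]; exact h.2.2
        · right
          rw [← c2]; exact h.2.2

theorem DT : DT_stmt := by
  intro I V _ _ _ _ D X F hF
  refine ⟨⟨?_, ?_, ?_⟩, ?_⟩
  · intro l e e' l' h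
    unfold FD.restr at h
    split_ifs at h with hX
    · exact ⟨(hF.conn.supp _ _ _ _ h).1, hX.1, hX.2⟩
    · exact absurd rfl h
  · intro l e l₁ e₁ h1 h2 h3
    by_cases hX : D.s1 l₁ ∈ X ∧ D.s2 e₁ ∈ X
    · rw [← hF.conn.row l e l₁ e₁ h1 (mem_univ _) (mem_univ _)]
      refine Finset.sum_congr rfl fun e' _ => Finset.sum_congr rfl fun l' _ => ?_
      unfold FD.restr
      rw [if_pos ⟨h2, h3⟩, if_pos hX]
    · have hne : ¬ (l = l₁ ∧ e = e₁) := by
        rintro ⟨rfl, rfl⟩
        exact hX ⟨h2, h3⟩
      rw [if_neg hne]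
      refine Finset.sum_eq_zero fun e' _ => Finset.sum_eq_zero fun l' _ => ?_
      unfold FD.restr
      rw [if_neg hX, star_zero, mul_zero]
  · intro e' l' e₁ l₁ h1 h2 h3
    rw [← hF.conn.col e' l' e₁ l₁ h1 (mem_univ _) (mem_univ _)]
    refine Finset.sum_congr rfl fun l _ => Finset.sum_congr rfl fun e _ => ?_
    by_cases h0 : F l e e' l' = 0
    · have h4 : D.restr X F l e e' l' = 0 := by
        unfold FD.restr
        split_ifs
        · exact h0
        · rfl
      rw [h0, h4, star_zero, zero_mul, zero_mul]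
    · obtain ⟨hcp, _, _⟩ := hF.conn.supp _ _ _ _ h0
      obtain ⟨c1, c2, c3, c4, c5, c6⟩ := hcp
      unfold FD.restr
      rw [if_pos ⟨c3 ▸ h2, c5 ▸ h3⟩, if_pos ⟨c3 ▸ h2, c5 ▸ h3⟩]
  · intro l p p' l' hl hok
    exact DT_tp D X F hF l' p l p' hl hok

end Pool.Agent.helper93.TV
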